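import Pool.Agent.Q318.ISD.Inv

/-!
# A semi-separated set of axioms for the division bimagmas of inverse semigroups (MP_cc6d20_al)
-/

namespace Pool.Agent.Results.MP_cc6d20_al.SemiSeparatedBasis

open Pool.Agent.Q318.ISD

universe u

/-- Terms in the two binary operations `\` (`ldiv`) and `/` (`rdiv`). -/
inductive Term
  | var (n : ℕ) : Term
  | ldiv (s t : Term) : Term
  | rdiv (s t : Term) : Term

/-- The value of a term in the bimagma with `x \ y = l x y` and `x / y = r x y`. -/
def Term.eval {S : Type u} (l r : S → S → S) (v : ℕ → S) : Term → S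
  | .var n => v n
  | .ldiv s t => l (s.eval l r v) (t.eval l r v)
  | .rdiv s t => r (s.eval l r v) (t.eval l r v)

/-- The operation `\` occurs in the term. -/
def Term.UsesLdiv : Term → Prop
  | .var _ => False
  | .ldiv _ _ => True
  | .rdiv s t => s.UsesLdiv ∨ t.UsesLdiv

/-- The operation `/` occurs in the term. -/
def Term.UsesRdiv : Term → Prop
  | .var _ => False
  | .ldiv s t => s.UsesRdiv ∨ t.UsesRdiv
  | .rdiv _ _ => True

/-- Both operations occur in the identity `i.1 = i.2`. -/
def InvolvesBoth (i : Term × Term) : Prop :=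
  (i.1.UsesLdiv ∨ i.2.UsesLdiv) ∧ (i.1.UsesRdiv ∨ i.2.UsesRdiv)

/-- The bimagma with operations `l`, `r` satisfies the identity `i.1 = i.2`. -/
def Satisfies {S : Type u} (l r : S → S → S) (i : Term × Term) : Prop :=
  ∀ v : ℕ → S, i.1.eval l r v = i.2.eval l r v

/-- The bimagma `(S, l, r)` is the division bimagma of an inverse semigroup on `S`:
`l x y = x' y` and `r x y = x y'`. -/
def IsDivisionBimagma {S : Type u} (l r : S → S → S) : Prop :=
  ∃ (mul : S → S → S) (inv : S → S), IsInverseSemigroup mul inv ∧
    (∀ x y, l x y = mul (inv x) y) ∧ ∀ x y, r x y = mul x (inv y)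

/-- The set of identities characterizes inverse semigroups in terms of their division
bimagmas. -/
def Characterizes (Sg : Set (Term × Term)) : Prop :=
  ∀ (S : Type u) (l r : S → S → S), (∀ i ∈ Sg, Satisfies l r i) ↔ IsDivisionBimagma l r

/-- At most two identities of the set involve both operations. -/
def SemiSeparated (Sg : Set (Term × Term)) : Prop :=
  {i ∈ Sg | InvolvesBoth i}.encard ≤ 2

open Term

/-- The variables. -/
def x : Term := .var 0
/-- The variables. -/
def y : Term := .var 1
/-- The variables. -/
def z : Term := .var 2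
/-- The variables. -/
def w : Term := .var 3

/-- The eight identities; only the first two involve both operations:
`(x / y) \ z = y / (z \ x)`, `(x / x) \ x = x`,
`(x / x) / (x / x) = x / x`, `(x / (y / z)) / w = x / (w / (z / y))`,
`(x / x) / (y / y) = (y / y) / (x / x)`, and the mirror images of the last three. -/
def basis : Set (Term × Term) :=
  {(ldiv (rdiv x y) z, rdiv y (ldiv z x)),
   (ldiv (rdiv x x) x, x),
   (rdiv (rdiv x x) (rdiv x x), rdiv x x),
   (rdiv (rdiv x (rdiv y z)) w, rdiv x (rdiv w (rdiv z y))),
   (rdiv (rdiv x x) (rdiv y y), rdiv (rdiv y y) (rdiv x x)),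
   (ldiv (ldiv x x) (ldiv x x), ldiv x x),
   (ldiv w (ldiv (ldiv z y) x), ldiv (ldiv (ldiv y z) w) x),
   (ldiv (ldiv x x) (ldiv y y), ldiv (ldiv y y) (ldiv x x))}

/-- Substitution of four elements for the variables. -/
def val {S : Type u} (a b c d : S) : ℕ → S
  | 0 => a
  | 1 => b
  | 2 => c
  | _ => d

theorem satisfies_iff {S : Type u} (l r : S → S → S) :
    (∀ i ∈ basis, Satisfies l r i) ↔ Ax l r := by
  constructor
  · intro h
    simp only [basis, Set.mem_insert_iff, Set.mem_singleton_iff, forall_eq_or_imp,
      forall_eq] at h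
    obtain ⟨h1, h2, h3, h4, h5, h6, h7, h8⟩ := h
    exact
      { t1 := fun a b c => h1 (val a b c a)
        t2 := fun a => h2 (val a a a a)
        i1 := fun a => h3 (val a a a a)
        i2 := fun a => h6 (val a a a a)
        a1 := fun a b c d => h4 (val a b c d)
        a2 := fun a b c d => h7 (val a b c d)
        c1 := fun a b => h5 (val a b a a)
        c2 := fun a b => h8 (val a b a a) }
  · intro H
    simp only [basis, Set.mem_insert_iff, Set.mem_singleton_iff, forall_eq_or_imp,
      forall_eq]
    exact ⟨fun v => H.t1 _ _ _, fun v => H.t2 _, fun v => H.i1 _, fun v => H.a1 _ _ _ _,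
      fun v => H.c1 _ _, fun v => H.i2 _, fun v => H.a2 _ _ _ _, fun v => H.c2 _ _⟩

theorem semiSeparated_basis : SemiSeparated basis := by
  have hsub : {i ∈ basis | InvolvesBoth i} ⊆
      {(ldiv (rdiv x y) z, rdiv y (ldiv z x)), (ldiv (rdiv x x) x, x)} := by
    rintro i ⟨hi, hb⟩
    simp only [basis, Set.mem_insert_iff, Set.mem_singleton_iff] at hi
    rcases hi with rfl | rfl | rfl | rfl | rfl | rfl | rfl | rfl
    · exact Or.inl rfl
    · exact Or.inr rfl
    all_goals
      exfalso
      revert hb
      simp [InvolvesBoth, Term.UsesLdiv, Term.UsesRdiv, x, y, z, w]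
  refine (Set.encard_le_encard hsub).trans ((Set.encard_insert_le _ _).trans ?_)
  rw [Set.encard_singleton]
  norm_num

/-- The eight identities form a semi-separated set that characterizes inverse semigroups in
terms of their division bimagmas. -/
theorem result : SemiSeparated basis ∧ Characterizes.{u} basis := by
  refine ⟨semiSeparated_basis, ?_⟩
  intro S l r
  rw [satisfies_iff]
  constructor
  · intro H
    exact H.exists_inv
  · rintro ⟨mul, inv, h, hl, hr⟩
    have el : l = fun x y => mul (inv x) y := by funext x y; exact hl x y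
    have er : r = fun x y => mul x (inv y) := by funext x y; exact hr x y
    rw [el, er]
    exact ax_of_inv h

end Pool.Agent.Results.MP_cc6d20_al.SemiSeparatedBasis
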